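import Mathlib
import Pool.Agent.UnivA.Defs
import Pool.Agent.UnivA.Final

/-!
# Q2: there is no universal narrow `ℵ₂`-Aronszajn tree
-/

open Cardinal

namespace Pool.Agent.Results.MP_b51432_lc.NoUniversalAleph2

open Pool.Agent.UnivA

universe u

/-- Outright (in the usual axioms of set theory) there is no universal narrow `ℵ₂`-Aronszajn
tree; more precisely, for every narrow `ℵ₂`-Aronszajn tree `T` there is a narrow `ℵ₂`-Aronszajn
tree `S` which does not even weakly embed into `T`. -/
theorem result :
    (¬ ∃ (T : Type u) (_ : PartialOrder T), IsUniversal (ℵ_ 2) T) ∧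
    ∀ (T : Type u) [PartialOrder T], IsNarrowAronszajn (ℵ_ 2) T →
      ∃ (S : Type u) (_ : PartialOrder S), IsNarrowAronszajn (ℵ_ 2) S ∧ ¬ WeaklyEmbeds S T :=
  ⟨not_universal exists_not_weaklyEmbeds, exists_not_weaklyEmbeds⟩

end Pool.Agent.Results.MP_b51432_lc.NoUniversalAleph2
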