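import Mathlib
import Pool.Agent.UnivA.Bridge
import Pool.Agent.UnivA.CaseMho

/-!
# A universal Aronszajn tree refutes Moore's principle mho
-/

open Cardinal Ordinal Set

namespace Pool.Agent.Results.MP_b51432_lc.UniversalFailsMho

open Pool.Agent.UnivA

universe u

/-- `E` is a closed unbounded subset of `ω₁`. -/
structure IsClubOmegaOne (E : Set Ordinal.{u}) : Prop where
  below : ∀ x ∈ E, x < ω_ 1
  unbounded : ∀ a < ω_ 1, ∃ e ∈ E, a < e
  closed : ∀ c < ω_ 1, Order.IsSuccLimit c → (∀ b < c, ∃ e ∈ E, b < e ∧ e < c) → c ∈ E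

/-- `g : δ → ω` (only the values below `δ` matter) is continuous: to the left of every limit
ordinal `x < δ` it is eventually constant with value `g x`. -/
def ContinuousBelow (δ : Ordinal.{u}) (g : Ordinal.{u} → ℕ) : Prop :=
  ∀ x < δ, Order.IsSuccLimit x → ∃ b < x, ∀ y, b < y → y < x → g y = g x

/-- the ordinal of an element of `(succ ℵ₀).ord.ToType` -/
noncomputable def val (a : (Order.succ (ℵ₀ : Cardinal.{u})).ord.ToType) : Ordinal.{u} :=
  (Ordinal.ToType.mk.symm a).1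

theorem val_lt (a : (Order.succ (ℵ₀ : Cardinal.{u})).ord.ToType) :
    val a < (Order.succ (ℵ₀ : Cardinal.{u})).ord := (Ordinal.ToType.mk.symm a).2

theorem val_lt_iff (a b : (Order.succ (ℵ₀ : Cardinal.{u})).ord.ToType) :
    val a < val b ↔ a < b :=
  (OrderIso.lt_iff_lt Ordinal.ToType.mk.symm : _ ↔ a < b)

theorem val_surj {o : Ordinal.{u}} (h : o < (Order.succ (ℵ₀ : Cardinal.{u})).ord) :
    ∃ a : (Order.succ (ℵ₀ : Cardinal.{u})).ord.ToType, val a = o := by
  refine ⟨Ordinal.ToType.mk ⟨o, h⟩, ?_⟩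
  unfold val
  simp

theorem isLim_iff (a : (Order.succ (ℵ₀ : Cardinal.{u})).ord.ToType) :
    IsLim a ↔ Order.IsSuccLimit (val a) := by
  constructor
  · rintro ⟨⟨b, hb⟩, h⟩
    refine ⟨?_, ?_⟩
    · intro hmin
      exact absurd ((val_lt_iff b a).2 hb) (not_lt.2 (hmin ((val_lt_iff b a).2 hb).le))
    · intro c hc
      obtain ⟨c', rfl⟩ := val_surj (hc.lt.trans (val_lt a))
      obtain ⟨d, hd1, hd2⟩ := h c' ((val_lt_iff c' a).1 hc.lt)
      exact hc.2 ((val_lt_iff c' d).2 hd1) ((val_lt_iff d a).2 hd2)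
  · rintro ⟨h1, h2⟩
    constructor
    · rw [not_isMin_iff] at h1
      obtain ⟨b, hb⟩ := h1
      obtain ⟨b', rfl⟩ := val_surj (hb.trans (val_lt a))
      exact ⟨b', (val_lt_iff b' a).1 hb⟩
    · intro b hb
      by_contra hcon
      push Not at hcon
      apply h2 (val b)
      refine ⟨(val_lt_iff b a).2 hb, fun c hc1 hc2 => ?_⟩
      obtain ⟨c', rfl⟩ := val_surj (hc2.trans (val_lt a))
      exact absurd ((val_lt_iff c' a).1 hc2) (not_lt.2 (hcon c' ((val_lt_iff b c').1 hc1)))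

/-- **A universal Aronszajn tree refutes Moore's principle.** Suppose that some narrow
`ℵ₁`-Aronszajn tree `T` admits a weak embedding of every narrow `ℵ₁`-Aronszajn tree. Then for
every sequence of continuous functions `f δ : δ → ω` (`δ < ω₁`) there is a club `E ⊆ ω₁` such that
no `f δ` maps `E ∩ δ` onto `ω`. -/
theorem result (T : Type u) [PartialOrder T] (hT : IsNarrowAronszajn (ℵ_ 1) T)
    (hU : ∀ (S : Type u) [PartialOrder S], IsNarrowAronszajn (ℵ_ 1) S → WeaklyEmbeds S T)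
    (f : Ordinal.{u} → Ordinal.{u} → ℕ) (hf : ∀ δ < ω_ 1, ContinuousBelow δ (f δ)) :
    ∃ E : Set Ordinal.{u}, IsClubOmegaOne E ∧ ∀ δ < ω_ 1, ∃ n, ∀ x ∈ E, x < δ → f δ x ≠ n := by
  have hal : (ℵ_ 1 : Cardinal.{u}) = Order.succ ℵ₀ := succ_aleph0.symm
  have hom : (ω_ 1 : Ordinal.{u}) = (Order.succ (ℵ₀ : Cardinal.{u})).ord := by
    rw [← hal, ord_aleph]
  by_contra hcon
  push Not at hcon
  have hM : Mho (Order.succ (ℵ₀ : Cardinal.{u})).ord.ToType := by
    refine ⟨fun d x => f (val d) (val x), ?_, ?_⟩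
    · intro d x hxd hx
      obtain ⟨b, hb, hb2⟩ := hf (val d) (by rw [hom]; exact val_lt d) (val x)
        ((val_lt_iff x d).2 hxd) ((isLim_iff x).1 hx)
      obtain ⟨b', rfl⟩ := val_surj (hb.trans (val_lt x))
      refine ⟨b', (val_lt_iff b' x).1 hb, fun y hy1 hy2 => ?_⟩
      exact hb2 (val y) ((val_lt_iff b' y).2 hy1) ((val_lt_iff y x).2 hy2)
    · intro E hE1 hE2
      have hclub : IsClubOmegaOne (val '' E) := by
        refine ⟨?_, ?_, ?_⟩
        · rintro _ ⟨x, -, rfl⟩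
          rw [hom]
          exact val_lt x
        · intro a ha
          rw [hom] at ha
          obtain ⟨a', rfl⟩ := val_surj ha
          obtain ⟨e, he, hae⟩ := hE1 a'
          exact ⟨val e, ⟨e, he, rfl⟩, (val_lt_iff a' e).2 hae⟩
        · intro c hc hlim hcl
          rw [hom] at hc
          obtain ⟨c', rfl⟩ := val_surj hc
          refine ⟨c', hE2 c' ((isLim_iff c').2 hlim) (fun b hb => ?_), rfl⟩
          obtain ⟨_, ⟨e, he, rfl⟩, h1, h2⟩ := hcl (val b) ((val_lt_iff b c').2 hb)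
          exact ⟨e, he, (val_lt_iff b e).1 h1, (val_lt_iff e c').1 h2⟩
      obtain ⟨δ, hδ, h⟩ := hcon (val '' E) hclub
      rw [hom] at hδ
      obtain ⟨d, rfl⟩ := val_surj hδ
      refine ⟨d, fun n => ?_⟩
      obtain ⟨x, ⟨x', hx', rfl⟩, hx1, hx2⟩ := h n
      exact ⟨x', hx', (val_lt_iff x' d).1 hx1, hx2⟩
  rw [hal] at hT
  obtain ⟨S, hS, h1, h2⟩ := bridge (lam := ℵ₀) le_rfl (fun T D hD => by
    obtain ⟨t0, -⟩ := hD.full (Classical.choice (idxOK_succ (le_refl (ℵ₀ : Cardinal.{u}))).ne)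
    exact caseMho (idxOK_succ le_rfl) hM hD t0) T hT
  exact h2 (hU S (by rw [hal]; exact h1))

end Pool.Agent.Results.MP_b51432_lc.UniversalFailsMho
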